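import Mathlib

/-!
# Every group of odd prime exponent and class at most two has an integral

Let `G` satisfy `x ^ p = 1` and `[[x, y], z] = 1`, `p` an odd prime. The Baer addition
`x ⊕ y = x y [y, x] ^ ((p + 1) / 2)` makes `G` a vector space over `ZMod p`, in which the derived
subgroup is a subspace; choosing a complement `V` of it, the linear map that is `-1` on `V` and `1`
on the derived subgroup is an automorphism `α` of the group `G`. The derived subgroup of
`G ⋊ ⟨α⟩` is `G`.
-/

set_option autoImplicit false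

open scoped commutatorElement

namespace Pool.Agent.Results.MP_fbf3cb_al.ClassTwoPrimeExponent

universe u

/-- The group `G` lies in the variety defined by the set of laws `L`: every word of `L` takes only
the value `1` in `G`. -/
def InVariety (L : Set (FreeGroup ℕ)) (G : Type u) [Group G] : Prop :=
  ∀ w ∈ L, ∀ f : ℕ → G, FreeGroup.lift f w = 1

/-- The laws `x₀ ^ p` and `[[x₀, x₁], x₂]`. -/
def laws (p : ℕ) : Set (FreeGroup ℕ) :=
  {FreeGroup.of 0 ^ p, ⁅⁅FreeGroup.of 0, FreeGroup.of 1⁆, FreeGroup.of 2⁆}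

section Baer

variable {G : Type u} [Group G]

theorem comm_mul_right (hc : ∀ a b c : G, ⁅a, b⁆ * c = c * ⁅a, b⁆) (a b c : G) :
    ⁅a, b * c⁆ = ⁅a, b⁆ * ⁅a, c⁆ := by
  have h1 := hc a c b⁻¹
  have h2 : ⁅a, b * c⁆ = ⁅a, b⁆ * (b * ⁅a, c⁆ * b⁻¹) := by
    simp only [commutatorElement_def]; group
  rw [h2, mul_assoc b, h1]
  group

theorem comm_mul_left (hc : ∀ a b c : G, ⁅a, b⁆ * c = c * ⁅a, b⁆) (a b c : G) :
    ⁅a * b, c⁆ = ⁅a, c⁆ * ⁅b, c⁆ := by
  have h1 := hc b c a⁻¹
  have h2 : ⁅a * b, c⁆ = (a * ⁅b, c⁆ * a⁻¹) * ⁅a, c⁆ := by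
    simp only [commutatorElement_def]; group
  rw [h2, mul_assoc a, h1, ← mul_assoc, mul_inv_cancel, one_mul, hc]

theorem comm_swap (a b : G) : ⁅b, a⁆ = ⁅a, b⁆⁻¹ := by
  simp only [commutatorElement_def]; group

theorem comm_central_left (z a : G) (hz : ∀ c : G, z * c = c * z) : ⁅z, a⁆ = 1 := by
  rw [commutatorElement_eq_one_iff_mul_comm]; exact hz a

theorem comm_central_right (z a : G) (hz : ∀ c : G, z * c = c * z) : ⁅a, z⁆ = 1 := by
  rw [commutatorElement_eq_one_iff_mul_comm]; exact (hz a).symm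

theorem pow_central (z : G) (hz : ∀ c : G, z * c = c * z) (n : ℕ) (c : G) :
    z ^ n * c = c * z ^ n := by
  have : Commute z c := hz c
  exact (this.pow_left n)

theorem mem_comm_central (hc : ∀ a b c : G, ⁅a, b⁆ * c = c * ⁅a, b⁆) {w : G}
    (hw : w ∈ commutator G) (c : G) : w * c = c * w := by
  have h : commutator G ≤ Subgroup.center G := by
    rw [commutator_def, Subgroup.commutator_le]
    intro a _ b _
    rw [Subgroup.mem_center_iff]
    intro g
    exact (hc a b g).symm
  exact ((Subgroup.mem_center_iff.1 (h hw)) c).symm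

/-- The Baer sum. -/
def badd (h : ℕ) (x y : G) : G := x * y * ⁅y, x⁆ ^ h

variable (h : ℕ) (hc : ∀ a b c : G, ⁅a, b⁆ * c = c * ⁅a, b⁆) (hh : ∀ g : G, g ^ (2 * h) = g)

include hc in
theorem badd_central (x w : G) (hw : ∀ c : G, w * c = c * w) : badd h x w = x * w := by
  rw [badd, comm_central_left _ _ hw, one_pow, mul_one]

include hc in
theorem badd_assoc (x y z : G) : badd h (badd h x y) z = badd h x (badd h y z) := by
  have c1 : ∀ a b c : G, ⁅a, b⁆ ^ h * c = c * ⁅a, b⁆ ^ h := fun a b c =>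
    pow_central _ (hc a b) h c
  have e1 : ⁅z, x * y * ⁅y, x⁆ ^ h⁆ = ⁅z, x⁆ * ⁅z, y⁆ := by
    rw [comm_mul_right hc, comm_mul_right hc, comm_central_right _ _ (c1 y x), mul_one]
  have e2 : ⁅y * z * ⁅z, y⁆ ^ h, x⁆ = ⁅y, x⁆ * ⁅z, x⁆ := by
    rw [comm_mul_left hc, comm_mul_left hc, comm_central_left _ _ (c1 z y), mul_one]
  have m1 : (⁅z, x⁆ * ⁅z, y⁆) ^ h = ⁅z, x⁆ ^ h * ⁅z, y⁆ ^ h :=
    Commute.mul_pow (hc z x _) h
  have m2 : (⁅y, x⁆ * ⁅z, x⁆) ^ h = ⁅y, x⁆ ^ h * ⁅z, x⁆ ^ h :=
    Commute.mul_pow (hc y x _) h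
  unfold badd
  rw [e1, e2, m1, m2]
  calc x * y * ⁅y, x⁆ ^ h * z * (⁅z, x⁆ ^ h * ⁅z, y⁆ ^ h)
      = x * y * (⁅y, x⁆ ^ h * z) * (⁅z, x⁆ ^ h * ⁅z, y⁆ ^ h) := by group
    _ = x * y * (z * ⁅y, x⁆ ^ h) * (⁅z, x⁆ ^ h * ⁅z, y⁆ ^ h) := by rw [c1]
    _ = x * y * z * (⁅y, x⁆ ^ h * ⁅z, x⁆ ^ h * ⁅z, y⁆ ^ h) := by group
    _ = x * y * z * (⁅z, y⁆ ^ h * (⁅y, x⁆ ^ h * ⁅z, x⁆ ^ h)) := by
        rw [c1 z y (⁅y, x⁆ ^ h * ⁅z, x⁆ ^ h)]
    _ = x * (y * z * ⁅z, y⁆ ^ h) * (⁅y, x⁆ ^ h * ⁅z, x⁆ ^ h) := by group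

include hc hh in
theorem badd_comm (x y : G) : badd h x y = badd h y x := by
  have e1 : x * y = ⁅x, y⁆ * (y * x) := by simp only [commutatorElement_def]; group
  have e2 : ⁅x, y⁆ ^ h * ⁅x, y⁆ ^ h = ⁅x, y⁆ := by
    rw [← pow_add, ← two_mul, hh]
  unfold badd
  rw [comm_swap x y, inv_pow, mul_inv_eq_iff_eq_mul, e1, hc x y, mul_assoc (y * x), e2]

include hc in
theorem badd_mem {x y : G} (hx : x ∈ commutator G) (hy : y ∈ commutator G) :
    badd h x y ∈ commutator G := by
  refine mul_mem (mul_mem hx hy) (pow_mem ?_ h)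
  exact Subgroup.commutator_mem_commutator (Subgroup.mem_top _) (Subgroup.mem_top _)

/-- The Baer group structure. -/
@[reducible] def baer : AddCommGroup G where
  add x y := badd h x y
  zero := (1 : G)
  neg x := x⁻¹
  add_assoc x y z := badd_assoc h hc x y z
  zero_add x := by
    change badd h 1 x = x
    simp [badd]
  add_zero x := by
    change badd h x 1 = x
    simp [badd]
  neg_add_cancel x := by
    change badd h x⁻¹ x = 1
    simp [badd, commutatorElement_def]
  add_comm x y := badd_comm h hc hh x y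
  nsmul := fun n x => x ^ n
  nsmul_zero x := pow_zero x
  nsmul_succ n x := by
    change x ^ (n + 1) = badd h (x ^ n) x
    have : ⁅x, x ^ n⁆ = 1 := by
      rw [commutatorElement_eq_one_iff_mul_comm]
      exact (Commute.refl x).pow_right n
    rw [badd, this, one_pow, mul_one, pow_succ]
  zsmul := fun n x => x ^ n
  zsmul_zero' x := zpow_zero x
  zsmul_succ' n x := by
    change x ^ ((n + 1 : ℕ) : ℤ) = badd h (x ^ (n : ℤ)) x
    have : ⁅x, x ^ (n : ℤ)⁆ = 1 := by
      rw [commutatorElement_eq_one_iff_mul_comm]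
      exact (Commute.refl x).zpow_right n
    rw [badd, this, one_pow, mul_one, zpow_natCast, zpow_natCast, pow_succ]
  zsmul_neg' n x := by
    change x ^ (Int.negSucc n) = (x ^ ((n + 1 : ℕ) : ℤ))⁻¹
    rw [zpow_negSucc, zpow_natCast]

end Baer

theorem exists_proj_aux {K A : Type*} [Field K] [AddCommGroup A] [Module K A]
    (W : Submodule K A) : ∃ P : A →+ A, (∀ x, P x ∈ W) ∧ ∀ x ∈ W, P x = x := by
  obtain ⟨V, hV⟩ := Submodule.exists_isCompl W
  refine ⟨(W.subtype.comp (Submodule.projectionOnto W V hV)).toAddMonoidHom, ?_, ?_⟩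
  · intro x
    exact (Submodule.projectionOnto W V hV x).2
  · intro x hx
    have := Submodule.projectionOnto_apply_left hV ⟨x, hx⟩
    exact congrArg Subtype.val this

theorem exists_proj {p : ℕ} (hp : p.Prime) (A : Type u) [AddCommGroup A]
    (h : ∀ x : A, p • x = 0) (W : AddSubgroup A) :
    ∃ P : A →+ A, (∀ x, P x ∈ W) ∧ ∀ x ∈ W, P x = x := by
  haveI := Fact.mk hp
  letI : Module (ZMod p) A := AddCommGroup.zmodModule h
  obtain ⟨P, h1, h2⟩ := exists_proj_aux (AddSubgroup.toZModSubmodule p W)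
  exact ⟨P, fun x => (AddSubgroup.mem_toZModSubmodule p).1 (h1 x),
    fun x hx => h2 x ((AddSubgroup.mem_toZModSubmodule p).2 hx)⟩

section Aut

variable {G : Type u} [Group G] {p : ℕ}

theorem exists_aut (hp : p.Prime) (hp2 : p ≠ 2) (hc : ∀ a b c : G, ⁅a, b⁆ * c = c * ⁅a, b⁆)
    (he : ∀ g : G, g ^ p = 1) :
    ∃ α : MulAut G, ∀ x : G, ∃ w ∈ commutator G, α x = x⁻¹ * w := by
  obtain ⟨h, hh⟩ : ∃ h, 2 * h = p + 1 := by
    obtain ⟨k, hk⟩ := hp.odd_of_ne_two hp2
    exact ⟨k + 1, by omega⟩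
  have hh' : ∀ g : G, g ^ (2 * h) = g := fun g => by rw [hh, pow_succ, he, one_mul]
  letI : AddCommGroup G := baer h hc hh'
  have hadd : ∀ x y : G, x + y = badd h x y := fun x y => rfl
  have hneg : ∀ x : G, -x = x⁻¹ := fun x => rfl
  let W : AddSubgroup G :=
    { carrier := {x | x ∈ commutator G}
      add_mem' := fun {x y} hx hy => badd_mem h hc hx hy
      zero_mem' := one_mem (commutator G)
      neg_mem' := fun {x} hx => (commutator G).inv_mem hx }
  have hW : ∀ x : G, x ∈ W ↔ x ∈ commutator G := fun x => Iff.rfl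
  obtain ⟨P, hP1, hP2⟩ := exists_proj hp G he W
  have hsplit : ∀ x y : G, x * y = x + y + ⁅x, y⁆ ^ h := fun x y => by
    have c1 : ∀ c : G, ⁅x, y⁆ ^ h * c = c * ⁅x, y⁆ ^ h := pow_central _ (hc x y) h
    rw [hadd (x + y), badd_central h hc _ _ c1, hadd, badd, comm_swap x y, inv_pow]
    group
  have hcw : ∀ x w : G, w ∈ commutator G → x + w = x * w := fun x w hw => by
    rw [hadd, badd_central h hc _ _ (mem_comm_central hc hw)]
  let A : G →+ G := P + P - AddMonoidHom.id G
  have hA : ∀ x : G, A x = -x + (P x + P x) := fun x => by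
    simp only [A, AddMonoidHom.sub_apply, AddMonoidHom.add_apply, AddMonoidHom.id_apply]
    abel
  have hAA : ∀ x : G, A (A x) = x := fun x => by
    have : P (A x) = P x := by
      rw [hA, map_add, map_add, map_neg, hP2 _ (hP1 x)]
      abel
    rw [hA (A x), this, hA x]
    abel
  have hAw : ∀ x : G, ∃ w ∈ commutator G, A x = x⁻¹ * w := fun x => by
    refine ⟨P x + P x, ?_, ?_⟩
    · exact (hW _).1 (W.add_mem (hP1 x) (hP1 x))
    · rw [hA, hcw _ _ ((hW _).1 (W.add_mem (hP1 x) (hP1 x))), hneg]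
  have hfix : ∀ w ∈ commutator G, A w = w := fun w hw => by
    rw [hA, hP2 w ((hW w).2 hw)]
    abel
  have hcomm : ∀ x y : G, ⁅A x, A y⁆ = ⁅x, y⁆ := fun x y => by
    obtain ⟨w, hw, e⟩ := hAw x
    obtain ⟨w', hw', e'⟩ := hAw y
    rw [e, e', comm_mul_left hc, comm_mul_right hc, comm_mul_right hc,
      comm_central_right _ _ (mem_comm_central hc hw'),
      comm_central_left _ _ (mem_comm_central hc hw),
      comm_central_left _ _ (mem_comm_central hc hw), mul_one, mul_one, mul_one]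
    have h1 : ⁅x⁻¹, y⁻¹⁆ * ⁅x, y⁻¹⁆ = 1 := by
      rw [← comm_mul_left hc, inv_mul_cancel]; simp
    have h2 : ⁅x, y⁻¹⁆ * ⁅x, y⁆ = 1 := by
      rw [← comm_mul_right hc, inv_mul_cancel]; simp
    rw [mul_eq_one_iff_eq_inv] at h1
    rw [mul_eq_one_iff_inv_eq] at h2
    rw [h1, h2]
  have hmul : ∀ x y : G, A (x * y) = A x * A y := fun x y => by
    have hm : ⁅x, y⁆ ∈ commutator G :=
      Subgroup.commutator_mem_commutator (Subgroup.mem_top x) (Subgroup.mem_top y)
    rw [hsplit x y, map_add, map_add, hsplit (A x) (A y), hcomm, hfix _ (pow_mem hm h)]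
  exact ⟨{ toFun := A, invFun := A, left_inv := hAA, right_inv := hAA, map_mul' := hmul }, hAw⟩

end Aut

theorem exists_integral {G : Type u} [Group G] {p : ℕ} (hp : p.Prime) (hp2 : p ≠ 2)
    (hc : ∀ a b c : G, ⁅a, b⁆ * c = c * ⁅a, b⁆) (he : ∀ g : G, g ^ p = 1) :
    ∃ (H : Type u) (_ : Group H), Nonempty (commutator H ≃* G) := by
  obtain ⟨α, hα⟩ := exists_aut hp hp2 hc he
  obtain ⟨h, hh⟩ : ∃ h, 2 * h = p + 1 := by
    obtain ⟨k, hk⟩ := hp.odd_of_ne_two hp2
    exact ⟨k + 1, by omega⟩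
  let φ : Multiplicative ℤ →* MulAut G := zpowersHom (MulAut G) α
  let H := G ⋊[φ] Multiplicative ℤ
  refine ⟨H, inferInstance, ?_⟩
  have key : commutator H = (SemidirectProduct.inl : G →* H).range := by
    apply le_antisymm
    · have h1 : commutator H ≤ (SemidirectProduct.rightHom : H →* Multiplicative ℤ).ker :=
        Abelianization.commutator_subset_ker _
      rw [SemidirectProduct.range_inl_eq_ker_rightHom]
      exact h1
    · have h1 : ∀ w ∈ commutator G, (SemidirectProduct.inl w : H) ∈ commutator H := by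
        intro w hw
        have h2 : (commutator G).map (SemidirectProduct.inl : G →* H) ≤ commutator H := by
          rw [commutator_def, Subgroup.map_commutator]
          exact Subgroup.commutator_mono le_top le_top
        exact h2 (Subgroup.mem_map_of_mem _ hw)
      rintro _ ⟨x, rfl⟩
      obtain ⟨w, hw, e⟩ := hα x
      let t : H := SemidirectProduct.inr (Multiplicative.ofAdd 1)
      have h2 : t * SemidirectProduct.inl x * t⁻¹ = SemidirectProduct.inl (α x) := by
        have := SemidirectProduct.inl_aut (φ := φ) (Multiplicative.ofAdd 1) x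
        rw [← map_inv]
        rw [← this]
        simp [φ]
      have h3 : ⁅(SemidirectProduct.inl x : H), t⁆ = SemidirectProduct.inl (x * (α x)⁻¹) := by
        rw [commutatorElement_def, map_mul, map_inv, ← h2]
        simp only [mul_inv_rev, inv_inv, mul_assoc]
      have h4 : x * (α x)⁻¹ = w⁻¹ * x ^ 2 := by
        rw [e, mul_inv_rev, inv_inv, ← mul_assoc,
          ← mem_comm_central hc (inv_mem hw) x, mul_assoc, pow_two]
      have h5 : (SemidirectProduct.inl (w⁻¹ * x ^ 2) : H) ∈ commutator H := by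
        rw [← h4, ← h3]
        exact Subgroup.commutator_mem_commutator (Subgroup.mem_top _) (Subgroup.mem_top _)
      have h6 : (SemidirectProduct.inl (x ^ 2) : H) ∈ commutator H := by
        have := mul_mem (h1 w hw) h5
        rwa [← map_mul, mul_inv_cancel_left] at this
      have h7 : x = (x ^ 2) ^ h := by
        rw [← pow_mul, hh, pow_succ, he, one_mul]
      rw [h7, map_pow]
      exact pow_mem h6 h
  exact ⟨(MulEquiv.subgroupCongr key).trans
    (MonoidHom.ofInjective SemidirectProduct.inl_injective).symm⟩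

/-- Elements of the Heisenberg group modulo `p`. -/
@[ext] structure Heis (p : ℕ) where
  /-- first coordinate -/
  a : ZMod p
  /-- second coordinate -/
  b : ZMod p
  /-- central coordinate -/
  c : ZMod p

namespace Heis

variable {p : ℕ}

instance : Mul (Heis p) := ⟨fun x y => ⟨x.a + y.a, x.b + y.b, x.c + y.c + x.a * y.b⟩⟩
instance : One (Heis p) := ⟨⟨0, 0, 0⟩⟩
instance : Inv (Heis p) := ⟨fun x => ⟨-x.a, -x.b, -x.c + x.a * x.b⟩⟩

@[simp] theorem mul_a (x y : Heis p) : (x * y).a = x.a + y.a := rfl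
@[simp] theorem mul_b (x y : Heis p) : (x * y).b = x.b + y.b := rfl
@[simp] theorem mul_c (x y : Heis p) : (x * y).c = x.c + y.c + x.a * y.b := rfl
@[simp] theorem one_a : (1 : Heis p).a = 0 := rfl
@[simp] theorem one_b : (1 : Heis p).b = 0 := rfl
@[simp] theorem one_c : (1 : Heis p).c = 0 := rfl
@[simp] theorem inv_a (x : Heis p) : (x⁻¹).a = -x.a := rfl
@[simp] theorem inv_b (x : Heis p) : (x⁻¹).b = -x.b := rfl
@[simp] theorem inv_c (x : Heis p) : (x⁻¹).c = -x.c + x.a * x.b := rfl

instance : Group (Heis p) :=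
  Group.ofLeftAxioms
    (fun x y z => by ext <;> simp <;> ring)
    (fun x => by ext <;> simp)
    (fun x => by ext <;> simp)

theorem pow_eq (x : Heis p) (n : ℕ) :
    x ^ n = ⟨n * x.a, n * x.b, n * x.c + (n.choose 2 : ℕ) * (x.a * x.b)⟩ := by
  induction n with
  | zero => ext <;> simp
  | succ n ih =>
    rw [pow_succ, ih]
    ext
    · simp; ring
    · simp; ring
    · have : (n + 1).choose 2 = n.choose 1 + n.choose 2 := Nat.choose_succ_succ n 1
      simp [this]; ring

end Heis

/-- For each odd prime `p`, the variety defined by the laws `x ^ p = 1` and `[[x, y], z] = 1`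
contains a nonabelian group, and every group in it has an integral. -/
theorem result (p : ℕ) (hp : p.Prime) (hp2 : p ≠ 2) :
    (∃ (G : Type u) (_ : Group G), InVariety (laws p) G ∧ ∃ a b : G, a * b ≠ b * a) ∧
    ∀ (G : Type u) [Group G], InVariety (laws p) G →
      ∃ (H : Type u) (_ : Group H), Nonempty (commutator H ≃* G) := by
  refine ⟨⟨ULift.{u} (Heis p), inferInstance, ?_, ⟨⟨1, 0, 0⟩⟩, ⟨⟨0, 1, 0⟩⟩, ?_⟩, ?_⟩
  · intro w hw f
    rcases hw with rfl | rfl
    · rw [map_pow, FreeGroup.lift_apply_of]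
      apply ULift.ext
      rw [ULift.pow_down, Heis.pow_eq]
      have h1 : p ∣ p.choose 2 :=
        hp.dvd_choose_self two_ne_zero (lt_of_le_of_ne hp.two_le (Ne.symm hp2))
      have h2 : ((p.choose 2 : ℕ) : ZMod p) = 0 := (ZMod.natCast_eq_zero_iff _ _).2 h1
      rw [h2]
      ext <;> simp
    · simp only [map_commutatorElement, FreeGroup.lift_apply_of]
      apply ULift.ext
      simp only [commutatorElement_def, ULift.mul_down, ULift.inv_down, ULift.one_down]
      ext
      · simp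
      · simp
      · simp; ring
  · intro h
    have h1 := congrArg (fun x : ULift.{u} (Heis p) => x.down.c) h
    haveI := Fact.mk hp
    simp at h1
  · intro G _ hG
    refine exists_integral hp hp2 ?_ ?_
    · intro a b c
      have := hG ⁅⁅FreeGroup.of 0, FreeGroup.of 1⁆, FreeGroup.of 2⁆ (by right; rfl)
        (fun i => if i = 0 then a else if i = 1 then b else c)
      simp only [map_commutatorElement, FreeGroup.lift_apply_of] at this
      simpa [commutatorElement_eq_one_iff_mul_comm] using this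
    · intro g
      have := hG (FreeGroup.of 0 ^ p) (by left; rfl) (fun _ => g)
      simpa using this

end Pool.Agent.Results.MP_fbf3cb_al.ClassTwoPrimeExponent
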